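import Mathlib

/-!
# A non-trivial incomparable tiling of a four-dimensional box

The `4 x 3 x 9 x 5` box is tiled by eight boxes whose sorted side lengths are `(1,1,5,9)`,
`(2,2,4,5)`, `(1,2,5,7)`, `(1,3,3,6)`, `(1,2,3,9)`, `(3,3,3,3)`, `(2,3,3,4)`, `(2,2,3,7)`; they are
pairwise incomparable, and in no direction do all the tiles have the full extent of the box.
-/

namespace Pool.Agent.Results.MP_4d22c1_co.NonTrivialTiling

/-- The closed axis-parallel box with lower corner `p` and integer side lengths `s`. -/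
def box (p : Fin 4 → ℝ) (s : Fin 4 → ℕ) : Set (Fin 4 → ℝ) :=
  {x | ∀ k, p k ≤ x k ∧ x k ≤ p k + s k}

/-- The boxes with lower corners `p i` and positive integer side lengths `s i`, `i < n`, form a
tiling of the box `[0, X 0] × ... × [0, X 3]`. -/
structure IsTiling (X : Fin 4 → ℕ) (n : ℕ) (p : Fin n → Fin 4 → ℝ) (s : Fin n → Fin 4 → ℕ) :
    Prop where
  two : 2 ≤ n
  pos : ∀ i k, 0 < s i k
  disj : ∀ i j, i ≠ j → interior (box (p i) (s i)) ∩ interior (box (p j) (s j)) = ∅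
  union : ⋃ i, box (p i) (s i) = box (fun _ => 0) X

/-- The side lengths, sorted increasingly, are smaller at one index and larger at another. -/
def Incomparable (a b : Fin 4 → ℕ) : Prop :=
  ∃ σ τ : Equiv.Perm (Fin 4), Monotone (a ∘ σ) ∧ Monotone (b ∘ τ) ∧
    (∃ i, a (σ i) < b (τ i)) ∧ ∃ j, b (τ j) < a (σ j)

/-- The box with side lengths `X` has an incomparable tiling which is not a prism. -/
def HasNonTrivial (X : Fin 4 → ℕ) : Prop :=
  ∃ (n : ℕ) (p : Fin n → Fin 4 → ℝ) (s : Fin n → Fin 4 → ℕ), IsTiling X n p s ∧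
    (∀ i j, i ≠ j → Incomparable (s i) (s j)) ∧ ¬ ∃ k, ∀ i, s i k = X k

lemma interior_box (p : Fin 4 → ℝ) (s : Fin 4 → ℕ) {x : Fin 4 → ℝ}
    (hx : x ∈ interior (box p s)) (k : Fin 4) : p k < x k ∧ x k < p k + s k := by
  have h : box p s = Set.pi Set.univ (fun k => Set.Icc (p k) (p k + s k)) := by
    ext y
    simp only [box, Set.mem_setOf_eq, Set.mem_pi, Set.mem_univ, Set.mem_Icc, true_imp_iff]
  rw [h, interior_pi_set Set.finite_univ] at hx
  have := hx k (Set.mem_univ k)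
  simp only [interior_Icc] at this
  exact this

/-- a finite check on integer data which gives a tiling -/
theorem tiling_of_data (X : Fin 4 → ℕ) (n : ℕ) (P S : Fin n → Fin 4 → ℕ) (h2 : 2 ≤ n)
    (hX : ∀ k, 0 < X k)
    (hpos : ∀ i k, 0 < S i k)
    (hdis : ∀ i j, i ≠ j → ∃ k, P i k + S i k ≤ P j k ∨ P j k + S j k ≤ P i k)
    (hin : ∀ i k, P i k + S i k ≤ X k)
    (hcell : ∀ (a : Fin (X 0)) (b : Fin (X 1)) (c : Fin (X 2)) (d : Fin (X 3)), ∃ i,
      (P i 0 ≤ a ∧ a + 1 ≤ P i 0 + S i 0) ∧ (P i 1 ≤ b ∧ b + 1 ≤ P i 1 + S i 1) ∧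
      (P i 2 ≤ c ∧ c + 1 ≤ P i 2 + S i 2) ∧ (P i 3 ≤ d ∧ d + 1 ≤ P i 3 + S i 3)) :
    IsTiling X n (fun i k => (P i k : ℝ)) S := by
  refine ⟨h2, hpos, ?_, ?_⟩
  · intro i j hij
    rw [Set.eq_empty_iff_forall_notMem]
    rintro x ⟨h1, h2⟩
    obtain ⟨k, hk⟩ := hdis i j hij
    have a1 := interior_box _ _ h1 k
    have a2 := interior_box _ _ h2 k
    rcases hk with hk | hk
    · have : ((P i k : ℝ) + S i k) ≤ P j k := by exact_mod_cast hk
      linarith [a1.2, a2.1]
    · have : ((P j k : ℝ) + S j k) ≤ P i k := by exact_mod_cast hk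
      linarith [a2.2, a1.1]
  · ext x
    simp only [Set.mem_iUnion]
    constructor
    · rintro ⟨i, hi⟩ k
      have h := hi k
      have h3 : ((P i k : ℝ) + S i k) ≤ X k := by exact_mod_cast hin i k
      refine ⟨le_trans ?_ h.1, ?_⟩
      · positivity
      · have := h.2
        simp only [zero_add]
        linarith
    · intro hx
      have key : ∀ k, ∃ c : ℕ, c < X k ∧ (c : ℝ) ≤ x k ∧ x k ≤ c + 1 := by
        intro k
        obtain ⟨h0, h1⟩ := hx k
        simp only [zero_add] at h1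
        by_cases hlt : x k < X k
        · refine ⟨⌊x k⌋₊, ?_, Nat.floor_le h0, (Nat.lt_floor_add_one _).le⟩
          exact (Nat.floor_lt h0).2 hlt
        · have he : x k = X k := le_antisymm h1 (not_lt.1 hlt)
          have hp := hX k
          refine ⟨X k - 1, by omega, ?_, ?_⟩
          · rw [he]; exact_mod_cast Nat.sub_le _ _
          · rw [he]
            have : ((X k - 1 : ℕ) : ℝ) + 1 = X k := by
              have : X k - 1 + 1 = X k := by omega
              exact_mod_cast this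
            linarith
      choose c hc1 hc2 hc3 using key
      obtain ⟨i, h0, h1, h2', h3⟩ := hcell ⟨c 0, hc1 0⟩ ⟨c 1, hc1 1⟩ ⟨c 2, hc1 2⟩ ⟨c 3, hc1 3⟩
      refine ⟨i, ?_⟩
      have fin : ∀ k, P i k ≤ c k ∧ c k + 1 ≤ P i k + S i k := by
        intro k
        fin_cases k
        · exact h0
        · exact h1
        · exact h2'
        · exact h3
      intro k
      obtain ⟨f1, f2⟩ := fin k
      have f1' : ((P i k : ℝ)) ≤ c k := by exact_mod_cast f1
      have f2' : ((c k : ℝ)) + 1 ≤ P i k + S i k := by exact_mod_cast f2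
      exact ⟨le_trans f1' (hc2 k), le_trans (hc3 k) f2'⟩

/-- lower corners of the eight tiles -/
def P0 : Fin 8 → Fin 4 → ℕ := ![![0, 0, 0, 0], ![0, 1, 0, 0], ![0, 1, 2, 0], ![1, 0, 0, 0],
  ![1, 0, 0, 3], ![1, 0, 6, 0], ![1, 1, 2, 0], ![1, 1, 2, 3]]

/-- side lengths of the eight tiles -/
def S0 : Fin 8 → Fin 4 → ℕ := ![![1, 1, 9, 5], ![4, 2, 2, 5], ![1, 2, 7, 5], ![3, 1, 6, 3],
  ![3, 1, 9, 2], ![3, 3, 3, 3], ![3, 2, 4, 3], ![3, 2, 7, 2]]

/-- the sides of the big box -/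
def X0 : Fin 4 → ℕ := ![4, 3, 9, 5]

/-- the order of the sides of each tile -/
def O0 : Fin 8 → Fin 4 → Fin 4 := ![![0, 1, 3, 2], ![1, 2, 0, 3], ![0, 1, 3, 2], ![1, 0, 3, 2],
  ![1, 3, 0, 2], ![0, 1, 2, 3], ![1, 0, 3, 2], ![1, 3, 0, 2]]

/-- the inverse of the order -/
def I0 : Fin 8 → Fin 4 → Fin 4 := ![![0, 1, 3, 2], ![2, 0, 1, 3], ![0, 1, 3, 2], ![1, 0, 3, 2],
  ![2, 0, 3, 1], ![0, 1, 2, 3], ![1, 0, 3, 2], ![2, 0, 3, 1]]

/-- the order as a permutation -/
def perm (i : Fin 8) : Equiv.Perm (Fin 4) where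
  toFun := O0 i
  invFun := I0 i
  left_inv := by revert i; decide +kernel
  right_inv := by revert i; decide +kernel

theorem tiling0 : IsTiling X0 8 (fun i k => (P0 i k : ℝ)) S0 :=
  tiling_of_data X0 8 P0 S0 (by norm_num) (by decide +kernel) (by decide +kernel)
    (by decide +kernel) (by decide +kernel) (by decide +kernel)

theorem mono0 : ∀ i : Fin 8, Monotone (S0 i ∘ perm i) := by decide +kernel

theorem incomp0 (i j : Fin 8) (h : i ≠ j) : Incomparable (S0 i) (S0 j) := by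
  refine ⟨perm i, perm j, mono0 i, mono0 j, ?_, ?_⟩
  · revert i j; decide +kernel
  · revert i j; decide +kernel

theorem hasNonTrivial0 : HasNonTrivial X0 := by
  refine ⟨8, fun i k => (P0 i k : ℝ), S0, tiling0, incomp0, ?_⟩
  decide +kernel

/-- The `4 x 3 x 9 x 5` box, of volume 540, has a non-trivial incomparable tiling. -/
theorem result : HasNonTrivial ![4, 3, 9, 5] ∧ ∏ k, (![4, 3, 9, 5] : Fin 4 → ℕ) k = 540 :=
  ⟨hasNonTrivial0, by decide +kernel⟩

end Pool.Agent.Results.MP_4d22c1_co.NonTrivialTiling
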